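import Mathlib

/-!
Basic notions and two combinatorial lemmas (Neumann's lemma in a relative form and the
grid lemma for Sidon sets).
-/

namespace Pool.Agent.Lib.MP_ffa63f_al

open Set

universe u
variable {G : Type u} [Group G]

/-- `A` is Sidon relative to the relation `E`: there are no four distinct elements of `A`,
all `E`-related to the first one, with `a b⁻¹ = c d⁻¹`. -/
def Sidon (E : G → G → Prop) (A : Set G) : Prop :=
  ∀ a ∈ A, ∀ b ∈ A, ∀ c ∈ A, ∀ d ∈ A, a ≠ b → a ≠ c → a ≠ d → b ≠ c → b ≠ d → c ≠ d →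
    E a b → E a c → E a d → a * b⁻¹ ≠ c * d⁻¹

/-- `E` is good on the subgroup `H`. -/
def Good (H : Subgroup G) (E : G → G → Prop) : Prop :=
  ∀ F : Finset G, (∀ f ∈ F, f ∈ H) → ∃ K : Finset G, (∀ k ∈ K, k ∈ H) ∧
    ∀ A : Set G, (∀ a ∈ A, a ∈ H) → Sidon E A → ∀ g ∈ H, ∃ k ∈ K, ∀ f ∈ F, f⁻¹ * k * g ∉ A

theorem Sidon.mono {E E' : G → G → Prop} {A B : Set G} (h : Sidon E A)
    (hE : ∀ a ∈ B, ∀ b ∈ B, E' a b → E a b) (hB : B ⊆ A) : Sidon E' B := by
  intro a ha b hb c hc d hd h1 h2 h3 h4 h5 h6 e1 e2 e3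
  exact h a (hB ha) b (hB hb) c (hB hc) d (hB hd) h1 h2 h3 h4 h5 h6
    (hE a ha b hb e1) (hE a ha c hc e2) (hE a ha d hd e3)

/-- Relative version of Neumann's lemma. -/
theorem neumann {N K : Subgroup G} (h : N.relIndex K = 0) (Y : Finset G)
    (hY : ∀ y ∈ Y, y ∈ K) : ∃ k ∈ K, ∀ y₁ ∈ Y, ∀ y₂ ∈ Y, y₂⁻¹ * k * y₁ ∉ N := by
  classical
  by_contra hcon
  push Not at hcon
  let N' : Subgroup K := N.subgroupOf K
  let Y' : Finset K := Y.attach.image (fun y => (⟨y.1, hY y.1 y.2⟩ : K))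
  have hY' : ∀ y : K, (y : G) ∈ Y → y ∈ Y' := by
    intro y hy
    refine Finset.mem_image.2 ⟨⟨(y : G), hy⟩, Finset.mem_attach _ _, ?_⟩
    ext; rfl
  have key : ∃ p ∈ Y' ×ˢ Y', ((N'.map (MulAut.conj p.1).toMonoidHom)).FiniteIndex := by
    refine Subgroup.exists_finiteIndex_of_leftCoset_cover (s := Y' ×ˢ Y')
      (H := fun p => N'.map (MulAut.conj p.1).toMonoidHom) (g := fun p => p.2 * p.1⁻¹) ?_
    rw [Set.eq_univ_iff_forall]
    intro k
    obtain ⟨y₁, hy₁, y₂, hy₂, hk⟩ := hcon k k.2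
    refine Set.mem_iUnion₂.2 ⟨(⟨y₁, hY y₁ hy₁⟩, ⟨y₂, hY y₂ hy₂⟩), ?_, ?_⟩
    · exact Finset.mem_product.2 ⟨hY' _ hy₁, hY' _ hy₂⟩
    · rw [Set.mem_smul_set_iff_inv_smul_mem, SetLike.mem_coe, Subgroup.mem_map]
      refine ⟨⟨y₂⁻¹ * k * y₁, K.mul_mem (K.mul_mem (K.inv_mem (hY y₂ hy₂)) k.2) (hY y₁ hy₁)⟩,
        ?_, ?_⟩
      · exact Subgroup.mem_subgroupOf.2 hk
      · ext
        simp [MulAut.conj_apply, mul_assoc]
  obtain ⟨p, -, hp⟩ := key
  have h1 : (N'.map (MulAut.conj p.1).toMonoidHom).index = N'.index :=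
    Subgroup.index_map_equiv N' (MulAut.conj p.1)
  exact hp.index_ne_zero (h1.trans h)

/-- In an infinite subgroup one finds long sequences avoiding a finite set of quotients. -/
theorem exists_spread (H : Subgroup G) (hH : (H : Set G).Infinite) (Z : Finset G) (n : ℕ) :
    ∃ x : ℕ → G, (∀ i, x i ∈ H) ∧ ∀ i j, i < j → j < n → (x i)⁻¹ * x j ∉ Z := by
  classical
  induction n with
  | zero => exact ⟨fun _ => 1, fun _ => H.one_mem, fun i j _ hj => absurd hj (Nat.not_lt_zero _)⟩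
  | succ n ih =>
    obtain ⟨x, hx, hx'⟩ := ih
    let B : Finset G := (Finset.range n ×ˢ Z).image (fun p => x p.1 * p.2)
    obtain ⟨z, hz, hzB⟩ := hH.exists_notMem_finset B
    refine ⟨fun i => if i < n then x i else z, ?_, ?_⟩
    · intro i
      by_cases hi : i < n
      · simp only [hi, if_true]; exact hx i
      · simp only [hi, if_false]; exact hz
    · intro i j hij hj
      by_cases hjn : j < n
      · simp only [hjn, if_true, hij.trans hjn]
        exact hx' i j hij hjn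
      · have hin : i < n := by omega
        simp only [hin, hjn, if_true, if_false]
        intro hmem
        apply hzB
        refine Finset.mem_image.2 ⟨(i, (x i)⁻¹ * z), ?_, ?_⟩
        · exact Finset.mem_product.2 ⟨Finset.mem_range.2 hin, hmem⟩
        · simp

/-- The grid lemma: the total relation is good on every infinite subgroup. -/
theorem good_top (H : Subgroup G) (hH : (H : Set G).Infinite) : Good H (fun _ _ => True) := by
  classical
  intro F hF
  obtain ⟨Y, hYH, hYc⟩ := hH.exists_subset_card_eq (F.card + 1)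
  let Z : Finset G := (Y ×ˢ Y).image (fun p => p.1 * p.2⁻¹)
  let M : ℕ := ((Y ×ˢ Y) ×ˢ F).card + 1
  obtain ⟨x, hx, hx'⟩ := exists_spread H hH Z M
  have h1Z : (1 : G) ∈ Z := by
    have hne : Y.Nonempty := by
      rw [← Finset.card_pos, hYc]; omega
    obtain ⟨y, hy⟩ := hne
    exact Finset.mem_image.2 ⟨(y, y), Finset.mem_product.2 ⟨hy, hy⟩, by simp⟩
  have hxinj : ∀ i j, i < j → j < M → x i ≠ x j := by
    intro i j hij hj he
    apply hx' i j hij hj
    rw [he]; simpa using h1Z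
  refine ⟨(Finset.range M ×ˢ Y).image (fun p => x p.1 * p.2), ?_, ?_⟩
  · intro k hk
    obtain ⟨p, hp, rfl⟩ := Finset.mem_image.1 hk
    exact H.mul_mem (hx _) (hYH (Finset.mem_product.1 hp).2)
  · intro A _ hSid g _
    by_contra hcon
    push Not at hcon
    have hc : ∀ i < M, ∀ y ∈ Y, ∃ f ∈ F, f⁻¹ * (x i * y) * g ∈ A := by
      intro i hi y hy
      exact hcon (x i * y) (Finset.mem_image.2 ⟨(i, y),
        Finset.mem_product.2 ⟨Finset.mem_range.2 hi, hy⟩, rfl⟩)
    -- for every `i` two elements of `Y` get the same colour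
    have hpair : ∀ i < M, ∃ p ∈ (Y ×ˢ Y) ×ˢ F, p.1.1 ≠ p.1.2 ∧
        p.2⁻¹ * (x i * p.1.1) * g ∈ A ∧ p.2⁻¹ * (x i * p.1.2) * g ∈ A := by
      intro i hi
      choose! c hcF hcA using hc i hi
      have hlt : F.card < Y.card := by rw [hYc]; omega
      obtain ⟨y, hy, y', hy', hne, hcc⟩ :=
        Finset.exists_ne_map_eq_of_card_lt_of_maps_to hlt (f := c) (fun y hy => hcF y hy)
      refine ⟨((y, y'), c y), ?_, hne, hcA y hy, ?_⟩
      · exact Finset.mem_product.2 ⟨Finset.mem_product.2 ⟨hy, hy'⟩, hcF y hy⟩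
      · show (c y)⁻¹ * (x i * y') * g ∈ A
        rw [hcc]; exact hcA y' hy'
    choose! q hq hq1 hq2 hq3 using hpair
    have hlt : ((Y ×ˢ Y) ×ˢ F).card < (Finset.range M).card := by
      rw [Finset.card_range]; exact Nat.lt_succ_self _
    obtain ⟨i₀, hi₀, j₀, hj₀, hne₀, hqq₀⟩ :=
      Finset.exists_ne_map_eq_of_card_lt_of_maps_to hlt (f := q)
        (fun i hi => hq i (Finset.mem_range.1 hi))
    have main : ∀ i j, i < j → i < M → j < M → q i = q j → False := by
      intro i j hij hi hj hqq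
      obtain ⟨⟨⟨y, y'⟩, f⟩, hqi⟩ : ∃ t, q i = t := ⟨_, rfl⟩
      have hqj : q j = ((y, y'), f) := by rw [← hqq, hqi]
      have e := hq i hi
      have e1 := hq1 i hi
      have e2 := hq2 i hi
      have e3 := hq3 i hi
      have e2' := hq2 j hj
      have e3' := hq3 j hj
      rw [hqi] at e e1 e2 e3
      rw [hqj] at e2' e3'
      simp only at e1 e2 e3 e2' e3'
      have hyY : y ∈ Y := (Finset.mem_product.1 (Finset.mem_product.1 e).1).1
      have hy'Y : y' ∈ Y := (Finset.mem_product.1 (Finset.mem_product.1 e).1).2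
      have hxx := hxinj i j hij hj
      have hsp := hx' i j hij hj
      have hcross : ∀ u ∈ Y, ∀ v ∈ Y, x i * u ≠ x j * v := by
        intro u hu v hv he
        apply hsp
        refine Finset.mem_image.2 ⟨(u, v), Finset.mem_product.2 ⟨hu, hv⟩, ?_⟩
        show u * v⁻¹ = (x i)⁻¹ * x j
        rw [eq_inv_mul_iff_mul_eq, ← mul_assoc, he]; group
      have hcanc : ∀ u v : G, f⁻¹ * u * g = f⁻¹ * v * g → u = v := by
        intro u v huv
        exact mul_left_cancel (mul_right_cancel huv)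
      refine hSid _ e2 _ e2' _ e3 _ e3' ?_ ?_ ?_ ?_ ?_ ?_ trivial trivial trivial ?_
      · exact fun h => hcross y hyY y hyY (hcanc _ _ h)
      · exact fun h => e1 (mul_left_cancel (hcanc _ _ h))
      · exact fun h => hcross y hyY y' hy'Y (hcanc _ _ h)
      · exact fun h => hcross y' hy'Y y hyY (hcanc _ _ h).symm
      · exact fun h => e1 (mul_left_cancel (hcanc _ _ h))
      · exact fun h => hcross y' hy'Y y' hy'Y (hcanc _ _ h)
      · group
    rcases lt_or_gt_of_ne hne₀ with h | h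
    · exact main i₀ j₀ h (Finset.mem_range.1 hi₀) (Finset.mem_range.1 hj₀) hqq₀
    · exact main j₀ i₀ h (Finset.mem_range.1 hj₀) (Finset.mem_range.1 hi₀) hqq₀.symm

end Pool.Agent.Lib.MP_ffa63f_al
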