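import Pool.Agent.Lib.MP_ffa63f_al.Glue

/-!
Existence of suitable chains of subgroups and of good relations.
-/

namespace Pool.Agent.Lib.MP_ffa63f_al

open Set Cardinal

universe u
variable {G : Type u} [Group G]

theorem mk_closure_le (s : Set G) : #(Subgroup.closure s) ≤ max #s ℵ₀ := by
  rcases Set.eq_empty_or_nonempty s with rfl | hs
  · rw [Subgroup.closure_empty]
    refine le_max_of_le_right ?_
    have : #(⊥ : Subgroup G) = 1 := Cardinal.mk_eq_one _
    rw [this]; exact Cardinal.one_lt_aleph0.le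
  · have : Nonempty s := hs.to_subtype
    rw [FreeGroup.closure_eq_range]
    refine (Cardinal.mk_range_le (f := FreeGroup.lift ((↑) : s → G))).trans ?_
    rw [Cardinal.mk_freeGroup]

/-- Small subgroups have infinite relative index. -/
theorem relIndex_eq_zero_of_lt {H N : Subgroup G} (hH : ℵ₀ < #H) (hN : #N < #H) :
    N.relIndex H = 0 := by
  by_contra hne
  have hfin : (N.subgroupOf H).index ≠ 0 := hne
  have hf : Finite (H ⧸ N.subgroupOf H) := Subgroup.index_ne_zero_iff_finite.1 hfin
  have h1 : #H = #(H ⧸ N.subgroupOf H) * #(N.subgroupOf H) := by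
    rw [Cardinal.mul_def]
    exact Cardinal.mk_congr Subgroup.groupEquivQuotientProdSubgroup
  have h2 : #(N.subgroupOf H) ≤ #N := by
    refine Cardinal.mk_le_of_injective (f := fun x : N.subgroupOf H => (⟨(x : H), x.2⟩ : N)) ?_
    intro x y hxy
    have : ((x : H) : G) = ((y : H) : G) := by
      have h := congrArg (fun z : N => (z : G)) hxy
      exact h
    exact Subtype.ext (Subtype.ext this)
  have h3 : #(H ⧸ N.subgroupOf H) < ℵ₀ := Cardinal.lt_aleph0_of_finite _
  have h4 : #H ≤ max (max ℵ₀ #N) ℵ₀ := by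
    rw [h1]
    refine (Cardinal.mul_le_max _ _).trans ?_
    refine max_le (max_le ?_ ?_) (le_max_right _ _)
    · exact le_max_of_le_right h3.le
    · exact le_max_of_le_left (le_max_of_le_right h2)
  have h5 : max (max ℵ₀ #N) ℵ₀ < #H := max_lt (max_lt hH hN) hH
  exact absurd h4 (not_le.2 h5)

/-- Countably many witnesses for infinite relative index. -/
theorem exists_witness (H N : Subgroup G) (h : N.relIndex H = 0) :
    ∃ T : Set G, T.Countable ∧ (∀ t ∈ T, t ∈ H) ∧
      ∀ K : Subgroup G, (∀ t ∈ T, t ∈ K) → N.relIndex K = 0 := by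
  have h' : (N.subgroupOf H).index = 0 := h
  have hinf : Infinite (H ⧸ N.subgroupOf H) := Subgroup.index_eq_zero_iff_infinite.1 h'
  let φ : ℕ → H := fun n => Quotient.out (Infinite.natEmbedding (H ⧸ N.subgroupOf H) n)
  have hφ : ∀ m n, ((φ m : G)⁻¹ * (φ n : G)) ∈ N → m = n := by
    intro m n hmn
    apply (Infinite.natEmbedding (H ⧸ N.subgroupOf H)).injective
    rw [← QuotientGroup.out_eq' (Infinite.natEmbedding (H ⧸ N.subgroupOf H) m),
      ← QuotientGroup.out_eq' (Infinite.natEmbedding (H ⧸ N.subgroupOf H) n)]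
    apply QuotientGroup.eq.2
    rw [Subgroup.mem_subgroupOf]
    exact hmn
  refine ⟨Set.range (fun n => (φ n : G)), Set.countable_range _, ?_, ?_⟩
  · rintro _ ⟨n, rfl⟩; exact (φ n).2
  · intro K hK
    show (N.subgroupOf K).index = 0
    rw [Subgroup.index_eq_zero_iff_infinite]
    refine Infinite.of_injective (fun n : ℕ =>
      ((⟨φ n, hK _ ⟨n, rfl⟩⟩ : K) : K ⧸ N.subgroupOf K)) ?_
    intro m n hmn
    apply hφ
    have := QuotientGroup.eq.1 hmn
    rw [Subgroup.mem_subgroupOf] at this
    exact this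

theorem infinite_of_relIndex {N K : Subgroup G} (h : N.relIndex K = 0) :
    (K : Set G).Infinite := by
  intro hfin
  have : Finite K := hfin.to_subtype
  have h' : (N.subgroupOf K).index = 0 := h
  exact Subgroup.index_ne_zero_of_finite h'

theorem exists_chain (H : Subgroup G) (hH : ℵ₀ < #H) :
    ∃ (ι : Type u) (_ : LinearOrder ι) (_ : WellFoundedLT ι) (_ : Nonempty ι)
      (Hs : ι → Subgroup G), Monotone Hs ∧ (∀ i, #(Hs i) < #H) ∧
        (∀ i, (Nsub Hs i).relIndex (Hs i) = 0) ∧ (∀ x, x ∈ H ↔ ∃ i, x ∈ Hs i) := by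
  classical
  let ι : Type u := (#H).ord.ToType
  have hcard : #ι = #H := Cardinal.mk_ord_toType _
  have hne : Nonempty ι := by
    rw [← Cardinal.mk_ne_zero_iff, hcard]
    exact (lt_of_le_of_lt zero_le hH).ne'
  obtain ⟨e⟩ : Nonempty (ι ≃ H) := Cardinal.eq.1 hcard
  have hwit : ∀ N : Subgroup G, ∃ T : Set G, T.Countable ∧ (∀ t ∈ T, t ∈ H) ∧
      (N.relIndex H = 0 → ∀ K : Subgroup G, (∀ t ∈ T, t ∈ K) → N.relIndex K = 0) := by
    intro N
    by_cases h : N.relIndex H = 0
    · obtain ⟨T, h1, h2, h3⟩ := exists_witness H N h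
      exact ⟨T, h1, h2, fun _ => h3⟩
    · exact ⟨∅, Set.countable_empty, by simp, fun h' => absurd h' h⟩
  choose T hTc hTH hTidx using hwit
  let Φ : (i : ι) → ((j : ι) → j < i → Subgroup G) → Subgroup G := fun i rec =>
    Subgroup.closure ((⋃ j : Set.Iio i, (rec j.1 j.2 : Set G)) ∪ ({(e i : G)} ∪
      T (⨆ j : Set.Iio i, rec j.1 j.2)))
  let Hs : ι → Subgroup G := WellFounded.fix (wellFounded_lt (α := ι)) Φ
  have hHs : ∀ i, Hs i = Subgroup.closure ((⋃ j : Set.Iio i, (Hs j : Set G)) ∪ ({(e i : G)} ∪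
      T (Nsub Hs i))) := fun i => WellFounded.fix_eq _ _ _
  have hm : Monotone Hs := by
    intro i j hij
    rcases hij.lt_or_eq with h | h
    · rw [hHs j]
      intro x hx
      exact Subgroup.subset_closure (Or.inl (Set.mem_iUnion.2 ⟨⟨i, h⟩, hx⟩))
    · rw [h]
  have hsub : ∀ i, Hs i ≤ H := by
    intro i
    induction i using WellFoundedLT.induction with
    | ind i ih =>
      rw [hHs i, Subgroup.closure_le]
      rintro x (hx | hx | hx)
      · obtain ⟨j, hj⟩ := Set.mem_iUnion.1 hx
        exact ih j.1 j.2 hj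
      · rw [Set.mem_singleton_iff.1 hx]; exact (e i).2
      · exact hTH _ x hx
  have hbound : ∀ i, #(Hs i) ≤ max ℵ₀ #(Set.Iio i) := by
    intro i
    induction i using WellFoundedLT.induction with
    | ind i ih =>
      rw [hHs i]
      refine (mk_closure_le _).trans (max_le ?_ (le_max_left _ _))
      have h0 : ℵ₀ ≤ max ℵ₀ #(Set.Iio i) := le_max_left _ _
      refine (Cardinal.mk_union_le _ _).trans (Cardinal.add_le_of_le h0 ?_
        ((Cardinal.mk_union_le _ _).trans (Cardinal.add_le_of_le h0 ?_ ?_)))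
      · refine (Cardinal.mk_iUnion_le _).trans ?_
        refine (mul_le_mul' (le_max_right _ _ : _ ≤ max ℵ₀ #(Set.Iio i))
          (ciSup_le' (a := max ℵ₀ #(Set.Iio i)) ?_)).trans ?_
        · intro j
          refine (ih j.1 j.2).trans (max_le_max le_rfl ?_)
          exact Cardinal.mk_le_mk_of_subset (Set.Iio_subset_Iio (le_of_lt j.2))
        · exact (Cardinal.mul_eq_self h0).le
      · rw [Cardinal.mk_singleton]
        exact Cardinal.one_lt_aleph0.le.trans h0
      · exact (Cardinal.le_aleph0_iff_set_countable.2 (hTc _)).trans h0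
  have hlt : ∀ i : ι, max ℵ₀ #(Set.Iio i) < #H := by
    intro i
    refine max_lt hH ?_
    have := Cardinal.mk_Iio_lt i (by rw [hcard]; exact (Ordinal.type_toType _).symm)
    rwa [hcard] at this
  have hHlt : ∀ i, #(Hs i) < #H := fun i => (hbound i).trans_lt (hlt i)
  have hNlt : ∀ i, #(Nsub Hs i) < #H := by
    intro i
    by_cases hi : ∃ j, j < i
    · refine lt_of_le_of_lt ?_ (hHlt i)
      refine Cardinal.mk_le_mk_of_subset (s := (Nsub Hs i : Set G)) (t := (Hs i : Set G)) ?_
      intro x hx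
      exact low_mem hm (low_of_mem_Nsub hm hi hx)
    · have : IsEmpty (Set.Iio i) := ⟨fun j => hi ⟨j.1, j.2⟩⟩
      have h0 : Nsub Hs i = ⊥ := iSup_of_empty _
      rw [h0]
      have : #(⊥ : Subgroup G) = 1 := Cardinal.mk_eq_one _
      rw [this]
      exact Cardinal.one_lt_aleph0.trans hH
  refine ⟨ι, inferInstance, inferInstance, hne, Hs, hm, hHlt, ?_, ?_⟩
  · intro i
    refine hTidx (Nsub Hs i) (relIndex_eq_zero_of_lt hH (hNlt i)) (Hs i) ?_
    intro t ht
    rw [hHs i]
    exact Subgroup.subset_closure (Or.inr (Or.inr ht))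
  · intro x
    constructor
    · intro hx
      refine ⟨e.symm ⟨x, hx⟩, ?_⟩
      rw [hHs]
      refine Subgroup.subset_closure (Or.inr (Or.inl ?_))
      simp
    · rintro ⟨i, hi⟩
      exact hsub i hi

/-- Every infinite subgroup carries a good equivalence relation with countable classes. -/
theorem exists_good (H : Subgroup G) (hH : (H : Set G).Infinite) :
    ∃ E : G → G → Prop, Equivalence E ∧ (∀ x ∈ H, {y | y ∈ H ∧ E x y}.Countable) ∧
      Good H E := by
  suffices h : ∀ κ : Cardinal.{u}, ∀ H : Subgroup G, #H = κ → (H : Set G).Infinite →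
      ∃ E : G → G → Prop, Equivalence E ∧ (∀ x ∈ H, {y | y ∈ H ∧ E x y}.Countable) ∧
      Good H E from h _ H rfl hH
  intro κ
  induction κ using WellFoundedLT.induction with
  | ind κ ih =>
    intro H hκ hH
    by_cases hc : #H ≤ ℵ₀
    · refine ⟨fun _ _ => True, ⟨fun _ => trivial, fun _ => trivial, fun _ _ => trivial⟩, ?_,
        good_top H hH⟩
      intro x _
      exact (Cardinal.le_aleph0_iff_set_countable.1 hc).mono (fun y hy => hy.1)
    · obtain ⟨ι, _, _, _, Hs, hm, hlt, hidx, hmem⟩ := exists_chain H (not_le.1 hc)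
      have hD : ∀ i, ∃ E : G → G → Prop, Equivalence E ∧
          (∀ x ∈ Hs i, {y | y ∈ Hs i ∧ E x y}.Countable) ∧ Good (Hs i) E := fun i =>
        ih _ (hκ ▸ hlt i) (Hs i) rfl (infinite_of_relIndex (hidx i))
      choose D hDe hDc hDg using hD
      refine ⟨Rel Hs D, ⟨Rel.refl, Rel.symm, Rel.trans⟩, ?_, rel_good hm hDg hidx H hmem⟩
      intro x hx
      obtain ⟨i, hi⟩ := exists_lev ((hmem x).1 hx)
      exact (rel_countable hm (fun i x y h => (hDe i).symm h) hDc i x hi).mono
        (fun y hy => hy.2)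

end Pool.Agent.Lib.MP_ffa63f_al
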