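import Pool.Agent.Lib.MP_ffa63f_al.Basic

/-!
Gluing good relations along a well-ordered chain of subgroups.
-/

namespace Pool.Agent.Lib.MP_ffa63f_al

open Set

universe u
variable {G : Type u} [Group G]

/-- Reachability along a relation with countable fibres is countable. -/
theorem countable_reflTransGen {α : Type*} {S : α → α → Prop} {L : α → Prop}
    (hL : ∀ x y, L x → S x y → L y) (hc : ∀ x, L x → {y | S x y}.Countable) (x : α) (hx : L x) :
    {y | Relation.ReflTransGen S x y}.Countable := by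
  classical
  let T : ℕ → Set α := fun n => Nat.rec {x} (fun _ U => ⋃ y ∈ U, {z | S y z}) n
  have hT : ∀ n, (T n).Countable ∧ ∀ y ∈ T n, L y := by
    intro n
    induction n with
    | zero => exact ⟨Set.countable_singleton x, fun y hy => by
        rw [Set.mem_singleton_iff.1 hy]; exact hx⟩
    | succ n ih =>
      refine ⟨ih.1.biUnion (fun y hy => hc y (ih.2 y hy)), ?_⟩
      intro z hz
      obtain ⟨y, hy, hyz⟩ := Set.mem_iUnion₂.1 hz
      exact hL y z (ih.2 y hy) hyz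
  refine (Set.countable_iUnion (fun n => (hT n).1)).mono ?_
  intro y hy
  induction hy with
  | refl => exact Set.mem_iUnion.2 ⟨0, Set.mem_singleton x⟩
  | tail _ hyz ih =>
    obtain ⟨n, hn⟩ := Set.mem_iUnion.1 ih
    exact Set.mem_iUnion.2 ⟨n + 1, Set.mem_iUnion₂.2 ⟨_, hn, hyz⟩⟩

variable {ι : Type u} [LinearOrder ι]

/-- `x` belongs to an earlier member of the chain. -/
def Low (Hs : ι → Subgroup G) (i : ι) (x : G) : Prop := ∃ j, j < i ∧ x ∈ Hs j

/-- `x` has level exactly `i`. -/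
def Lev (Hs : ι → Subgroup G) (i : ι) (x : G) : Prop := x ∈ Hs i ∧ ¬ Low Hs i x

/-- The subgroup generated by the earlier members. -/
def Nsub (Hs : ι → Subgroup G) (i : ι) : Subgroup G := ⨆ j : Set.Iio i, Hs j

/-- Canonical representative of a right coset of `Nsub Hs i`. -/
noncomputable def rep (Hs : ι → Subgroup G) (i : ι) (g : G) : G :=
  Quotient.out (Quotient.mk (QuotientGroup.rightRel (Nsub Hs i)) g)

/-- The glued relation. -/
inductive Rel (Hs : ι → Subgroup G) (D : ι → G → G → Prop) : G → G → Prop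
  | refl (x : G) : Rel Hs D x x
  | symm {x y : G} (h : Rel Hs D x y) : Rel Hs D y x
  | trans {x y z : G} (h : Rel Hs D x y) (h' : Rel Hs D y z) : Rel Hs D x z
  | base {i : ι} {x y : G} (hx : Lev Hs i x) (hy : Lev Hs i y) (h : D i x y) : Rel Hs D x y
  | mulr {i : ι} {x y r : G} (hx : Low Hs i x) (hy : Low Hs i y) (hr : Lev Hs i r)
      (hρ : rep Hs i r = r) (h : Rel Hs D x y) : Rel Hs D (x * r) (y * r)

section
variable {Hs : ι → Subgroup G} {D : ι → G → G → Prop}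

theorem low_mem (hm : Monotone Hs) {i : ι} {x : G} (h : Low Hs i x) : x ∈ Hs i := by
  obtain ⟨j, hj, hx⟩ := h
  exact hm hj.le hx

theorem low_mul (hm : Monotone Hs) {i : ι} {x y : G} (h : Low Hs i x) (h' : Low Hs i y) :
    Low Hs i (x * y) := by
  obtain ⟨j, hj, hx⟩ := h
  obtain ⟨k, hk, hy⟩ := h'
  exact ⟨max j k, max_lt hj hk, (Hs _).mul_mem (hm (le_max_left _ _) hx)
    (hm (le_max_right _ _) hy)⟩

theorem low_inv {i : ι} {x : G} (h : Low Hs i x) : Low Hs i x⁻¹ := by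
  obtain ⟨j, hj, hx⟩ := h
  exact ⟨j, hj, (Hs j).inv_mem hx⟩

theorem mem_Nsub_of_low {i : ι} {x : G} (h : Low Hs i x) : x ∈ Nsub Hs i := by
  obtain ⟨j, hj, hx⟩ := h
  exact (le_iSup (fun j : Set.Iio i => Hs j) ⟨j, hj⟩) hx

theorem low_of_mem_Nsub (hm : Monotone Hs) {i : ι} (hi : ∃ j, j < i) {x : G}
    (h : x ∈ Nsub Hs i) : Low Hs i x := by
  obtain ⟨j₀, hj₀⟩ := hi
  have : Nonempty (Set.Iio i) := ⟨⟨j₀, hj₀⟩⟩
  have hd : Directed (· ≤ ·) (fun j : Set.Iio i => Hs j) := by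
    intro a b
    exact ⟨max a b, hm (le_max_left _ _), hm (le_max_right _ _)⟩
  obtain ⟨j, hj⟩ := (Subgroup.mem_iSup_of_directed hd).1 h
  exact ⟨j, j.2, hj⟩

theorem lev_mul (hm : Monotone Hs) {i : ι} {x r : G} (hx : Low Hs i x) (hr : Lev Hs i r) :
    Lev Hs i (x * r) := by
  refine ⟨(Hs i).mul_mem (low_mem hm hx) hr.1, fun h => hr.2 ?_⟩
  have := low_mul hm (low_inv hx) h
  rwa [inv_mul_cancel_left] at this

theorem lev_unique (_hm : Monotone Hs) {i j : ι} {x : G} (hi : Lev Hs i x) (hj : Lev Hs j x) :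
    i = j := by
  rcases lt_trichotomy i j with h | h | h
  · exact absurd ⟨i, h, hi.1⟩ hj.2
  · exact h
  · exact absurd ⟨j, h, hj.1⟩ hi.2

theorem exists_lev [WellFoundedLT ι] {x : G} (h : ∃ i, x ∈ Hs i) : ∃ i, Lev Hs i x := by
  have hne : {i | x ∈ Hs i}.Nonempty := h
  refine ⟨WellFounded.min wellFounded_lt _ hne, WellFounded.min_mem wellFounded_lt _ hne, ?_⟩
  rintro ⟨j, hj, hx⟩
  exact WellFounded.not_lt_min wellFounded_lt {i | x ∈ Hs i} hx hj

theorem rep_mul {i : ι} {x g : G} (hx : Low Hs i x) : rep Hs i (x * g) = rep Hs i g := by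
  unfold rep
  congr 1
  apply Quotient.sound
  show (QuotientGroup.rightRel (Nsub Hs i)) (x * g) g
  rw [QuotientGroup.rightRel_apply, mul_inv_rev, mul_inv_cancel_left]
  exact mem_Nsub_of_low (low_inv hx)

theorem rep_spec (hm : Monotone Hs) {i : ι} (hi : ∃ j, j < i) (g : G) :
    ∃ x, Low Hs i x ∧ g = x * rep Hs i g := by
  have h : (QuotientGroup.rightRel (Nsub Hs i)) (rep Hs i g) g :=
    Quotient.exact (Quotient.out_eq (Quotient.mk (QuotientGroup.rightRel (Nsub Hs i)) g))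
  rw [QuotientGroup.rightRel_apply] at h
  exact ⟨g * (rep Hs i g)⁻¹, low_of_mem_Nsub hm hi h, by simp⟩

theorem rep_rep (hm : Monotone Hs) {i : ι} (hi : ∃ j, j < i) (g : G) :
    rep Hs i (rep Hs i g) = rep Hs i g := by
  obtain ⟨x, hx, hg⟩ := rep_spec hm hi g
  have : rep Hs i g = x⁻¹ * g := by rw [eq_inv_mul_iff_mul_eq]; exact hg.symm
  conv_lhs => rw [this]
  exact rep_mul (low_inv hx)

/-- One-step relation on level `i`. -/
def Step (Hs : ι → Subgroup G) (D : ι → G → G → Prop) (i : ι) (x y : G) : Prop :=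
  Lev Hs i x ∧ Lev Hs i y ∧ (D i x y ∨ ∃ x' y' r, Low Hs i x' ∧ Low Hs i y' ∧
    rep Hs i r = r ∧ x = x' * r ∧ y = y' * r ∧ Rel Hs D x' y')

theorem step_symm (hD : ∀ i x y, D i x y → D i y x) {i : ι} {x y : G} (h : Step Hs D i x y) :
    Step Hs D i y x := by
  obtain ⟨h1, h2, h3⟩ := h
  refine ⟨h2, h1, ?_⟩
  rcases h3 with h3 | ⟨x', y', r, a, b, c, d, e, f⟩
  · exact Or.inl (hD _ _ _ h3)
  · exact Or.inr ⟨y', x', r, b, a, c, e, d, f.symm⟩

theorem rel_level (hm : Monotone Hs) (hD : ∀ i x y, D i x y → D i y x) {x y : G}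
    (h : Rel Hs D x y) : (∀ i, Lev Hs i x ↔ Lev Hs i y) ∧
      ∀ i, Lev Hs i x → Relation.ReflTransGen (Step Hs D i) x y := by
  induction h with
  | refl x => exact ⟨fun _ => Iff.rfl, fun _ _ => Relation.ReflTransGen.refl⟩
  | symm _ ih =>
    refine ⟨fun i => (ih.1 i).symm, fun i hi => ?_⟩
    have h1 := (ih.2 i ((ih.1 i).2 hi)).swap
    exact Relation.ReflTransGen.mono (fun a b hab => step_symm hD hab) _ _ h1
  | trans _ _ ih ih' =>
    exact ⟨fun i => (ih.1 i).trans (ih'.1 i), fun i hi =>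
      (ih.2 i hi).trans (ih'.2 i ((ih.1 i).1 hi))⟩
  | base hx hy h =>
    refine ⟨fun j => ⟨fun hj => ?_, fun hj => ?_⟩, fun j hj => ?_⟩
    · rwa [lev_unique hm hj hx]
    · rwa [lev_unique hm hj hy]
    · obtain rfl := lev_unique hm hj hx
      exact Relation.ReflTransGen.single ⟨hx, hy, Or.inl h⟩
  | mulr hx hy hr hρ h _ =>
    have hxl := lev_mul hm hx hr
    have hyl := lev_mul hm hy hr
    refine ⟨fun j => ⟨fun hj => ?_, fun hj => ?_⟩, fun j hj => ?_⟩
    · rwa [lev_unique hm hj hxl]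
    · rwa [lev_unique hm hj hyl]
    · obtain rfl := lev_unique hm hj hxl
      exact Relation.ReflTransGen.single ⟨hxl, hyl, Or.inr ⟨_, _, _, hx, hy, hρ, rfl, rfl, h⟩⟩

theorem rel_countable [WellFoundedLT ι] (hm : Monotone Hs) (hD : ∀ i x y, D i x y → D i y x)
    (hc : ∀ i, ∀ x ∈ Hs i, {y | y ∈ Hs i ∧ D i x y}.Countable) (i : ι) :
    ∀ x, Lev Hs i x → {y | Rel Hs D x y}.Countable := by
  induction i using WellFoundedLT.induction with
  | ind i ih =>
    intro x hx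
    refine (countable_reflTransGen (S := Step Hs D i) (L := Lev Hs i)
      (fun a b _ h => h.2.1) ?_ x hx).mono (fun y hy => (rel_level hm hD hy).2 i hx)
    intro a ha
    have h1 : {y | y ∈ Hs i ∧ D i a y}.Countable := hc i a ha.1
    have h2 : {y | ∃ x' y' r, Low Hs i x' ∧ Low Hs i y' ∧
        rep Hs i r = r ∧ a = x' * r ∧ y = y' * r ∧ Rel Hs D x' y'}.Countable := by
      by_cases hlow : Low Hs i (a * (rep Hs i a)⁻¹)
      · obtain ⟨j, hj, hmem⟩ := hlow
        obtain ⟨k, hk⟩ := exists_lev (Hs := Hs) ⟨j, hmem⟩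
        have hkj : k ≤ j := by
          by_contra hlt
          exact hk.2 ⟨j, not_le.1 hlt, hmem⟩
        have := ih k (hkj.trans_lt hj) _ hk
        refine (this.image (fun y => y * rep Hs i a)).mono ?_
        rintro y ⟨x', y', r, h1, h2, h3, h4, h5, h6⟩
        have hr : rep Hs i a = r := by rw [h4, rep_mul h1, h3]
        have hx' : a * (rep Hs i a)⁻¹ = x' := by rw [hr, h4]; group
        refine ⟨y', ?_, ?_⟩
        · show Rel Hs D (a * (rep Hs i a)⁻¹) y'
          rw [hx']; exact h6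
        · show y' * rep Hs i a = y
          rw [hr, h5]
      · convert Set.countable_empty
        rw [Set.eq_empty_iff_forall_notMem]
        rintro y ⟨x', y', r, h1, h2, h3, h4, h5, h6⟩
        have hr : rep Hs i a = r := by rw [h4, rep_mul h1, h3]
        have hx' : a * (rep Hs i a)⁻¹ = x' := by rw [hr, h4]; group
        exact hlow (hx' ▸ h1)
    refine (h1.union h2).mono ?_
    rintro y ⟨_, hy, h | h⟩
    · exact Or.inl ⟨hy.1, h⟩
    · exact Or.inr h

/-- Coherence of the glued relation with right translations. -/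
theorem rel_coset [WellFoundedLT ι] (hm : Monotone Hs) (j : ι) (i : ι) :
    ∀ g, Lev Hs i g → ∃ u ∈ Hs j, ∀ x ∈ Hs j, ∀ y ∈ Hs j, Rel Hs D x y →
      Rel Hs D (x * (u * g)) (y * (u * g)) := by
  induction i using WellFoundedLT.induction with
  | ind i ih =>
    intro g hg
    by_cases hij : i ≤ j
    · refine ⟨g⁻¹, (Hs j).inv_mem (hm hij hg.1), fun x _ y _ h => ?_⟩
      simpa using h
    · have hji : j < i := not_le.1 hij
      obtain ⟨x, hx, hgx⟩ := rep_spec hm ⟨j, hji⟩ g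
      obtain ⟨k, hk, hxk⟩ := hx
      obtain ⟨l, hl⟩ := exists_lev (Hs := Hs) ⟨k, hxk⟩
      have hlk : l ≤ k := by
        by_contra hlt
        exact hl.2 ⟨k, not_le.1 hlt, hxk⟩
      obtain ⟨u, hu, hrel⟩ := ih l (hlk.trans_lt hk) x hl
      have hr : Lev Hs i (rep Hs i g) := by
        have : rep Hs i g = x⁻¹ * g := by rw [eq_inv_mul_iff_mul_eq]; exact hgx.symm
        rw [this]
        exact lev_mul hm (low_inv ⟨k, hk, hxk⟩) hg
      refine ⟨u, hu, fun a ha b hb hab => ?_⟩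
      have h1 := hrel a ha b hb hab
      have hlow : ∀ c ∈ Hs j, Low Hs i (c * (u * x)) := fun c hc =>
        low_mul hm ⟨j, hji, hc⟩ (low_mul hm ⟨j, hji, hu⟩ ⟨k, hk, hxk⟩)
      have h2 := Rel.mulr (hlow a ha) (hlow b hb) hr (rep_rep hm ⟨j, hji⟩ g) h1
      have e : ∀ c : G, c * (u * x) * rep Hs i g = c * (u * g) := by
        intro c
        conv_rhs => rw [hgx]
        simp only [mul_assoc]
      rwa [e, e] at h2

theorem rel_good [WellFoundedLT ι] [Nonempty ι] (hm : Monotone Hs)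
    (hgood : ∀ i, Good (Hs i) (D i)) (hidx : ∀ i, (Nsub Hs i).relIndex (Hs i) = 0)
    (H : Subgroup G) (hH : ∀ x, x ∈ H ↔ ∃ i, x ∈ Hs i) : Good H (Rel Hs D) := by
  classical
  intro F hF
  -- a member of the chain containing `F`
  have hex : ∃ i, ∀ f ∈ F, f ∈ Hs i := by
    clear hgood
    induction F using Finset.induction_on with
    | empty => exact ⟨Classical.arbitrary ι, by simp⟩
    | insert a s _ ih =>
      obtain ⟨i, hi⟩ := ih (fun f hf => hF f (Finset.mem_insert_of_mem hf))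
      obtain ⟨j, hj⟩ := (hH a).1 (hF a (Finset.mem_insert_self _ _))
      refine ⟨max i j, fun f hf => ?_⟩
      rcases Finset.mem_insert.1 hf with rfl | hf
      · exact hm (le_max_right _ _) hj
      · exact hm (le_max_left _ _) (hi f hf)
  obtain ⟨i, hi⟩ := hex
  obtain ⟨K₁, hK₁, hK₁'⟩ := hgood i F hi
  let Y : Finset G := (K₁ ×ˢ F).image (fun p => p.1⁻¹ * p.2)
  have hY : ∀ y ∈ Y, y ∈ Hs i := by
    intro y hy
    obtain ⟨p, hp, rfl⟩ := Finset.mem_image.1 hy
    exact (Hs i).mul_mem ((Hs i).inv_mem (hK₁ _ (Finset.mem_product.1 hp).1))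
      (hi _ (Finset.mem_product.1 hp).2)
  obtain ⟨k₀, hk₀, hk₀'⟩ := neumann (hidx i) Y hY
  have hle : Hs i ≤ H := fun x hx => (hH x).2 ⟨i, hx⟩
  refine ⟨(K₁ ×ˢ ({1, k₀} : Finset G)).image (fun p => p.1 * p.2), ?_, ?_⟩
  · intro k hk
    obtain ⟨p, hp, rfl⟩ := Finset.mem_image.1 hk
    refine hle ((Hs i).mul_mem (hK₁ _ (Finset.mem_product.1 hp).1) ?_)
    rcases Finset.mem_insert.1 (Finset.mem_product.1 hp).2 with h | h
    · rw [h]; exact (Hs i).one_mem
    · rw [Finset.mem_singleton.1 h]; exact hk₀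
  · intro A _ hSid g hg
    obtain ⟨l, hl⟩ := exists_lev ((hH g).1 hg)
    obtain ⟨u, hu, hrel⟩ := rel_coset (D := D) hm i l g hl
    -- pull back to `Hs i`
    let A' : Set G := {x | x ∈ Hs i ∧ x * (u * g) ∈ A}
    let A₂ : Set G := {x | x ∈ A' ∧ ¬ Low Hs i x}
    have hA₂ : Sidon (D i) A₂ := by
      intro a ha b hb c hc d hd h1 h2 h3 h4 h5 h6 e1 e2 e3 he
      have lev : ∀ z ∈ A₂, Lev Hs i z := fun z hz => ⟨hz.1.1, hz.2⟩
      have tr : ∀ z ∈ A₂, D i a z → Rel Hs D (a * (u * g)) (z * (u * g)) := fun z hz h =>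
        hrel a ha.1.1 z hz.1.1 (Rel.base (lev a ha) (lev z hz) h)
      have ne : ∀ z w : G, z ≠ w → z * (u * g) ≠ w * (u * g) := fun z w h h' =>
        h (mul_right_cancel h')
      refine hSid _ ha.1.2 _ hb.1.2 _ hc.1.2 _ hd.1.2 (ne _ _ h1) (ne _ _ h2) (ne _ _ h3)
        (ne _ _ h4) (ne _ _ h5) (ne _ _ h6) (tr b hb e1) (tr c hc e2) (tr d hd e3) ?_
      have e : ∀ z w : G, z * (u * g) * (w * (u * g))⁻¹ = z * w⁻¹ := by
        intro z w; group
      rw [e, e, he]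
    -- choose the shift
    have hshift : ∃ k' ∈ ({1, k₀} : Finset G), ∀ y ∈ Y, y⁻¹ * (k' * u⁻¹) ∉ Nsub Hs i := by
      by_contra hcon
      push Not at hcon
      obtain ⟨y₁, hy₁, h₁⟩ := hcon 1 (by simp)
      obtain ⟨y₂, hy₂, h₂⟩ := hcon k₀ (by simp)
      apply hk₀' y₁ hy₁ y₂ hy₂
      have := (Nsub Hs i).mul_mem h₂ ((Nsub Hs i).inv_mem h₁)
      have e : y₂⁻¹ * (k₀ * u⁻¹) * (y₁⁻¹ * (1 * u⁻¹))⁻¹ = y₂⁻¹ * k₀ * y₁ := by group
      rwa [e] at this
    obtain ⟨k', hk', hk'Y⟩ := hshift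
    have hk'H : k' ∈ Hs i := by
      rcases Finset.mem_insert.1 hk' with h | h
      · rw [h]; exact (Hs i).one_mem
      · rw [Finset.mem_singleton.1 h]; exact hk₀
    obtain ⟨k, hk, hkF⟩ := hK₁' A₂ (fun a ha => ha.1.1) hA₂ (k' * u⁻¹)
      ((Hs i).mul_mem hk'H ((Hs i).inv_mem hu))
    refine ⟨k * k', Finset.mem_image.2 ⟨(k, k'), Finset.mem_product.2 ⟨hk, hk'⟩, rfl⟩, ?_⟩
    intro f hf hmem
    apply hkF f hf
    refine ⟨⟨?_, ?_⟩, ?_⟩
    · exact (Hs i).mul_mem ((Hs i).mul_mem ((Hs i).inv_mem (hi f hf)) (hK₁ k hk))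
        ((Hs i).mul_mem hk'H ((Hs i).inv_mem hu))
    · have e : f⁻¹ * k * (k' * u⁻¹) * (u * g) = f⁻¹ * (k * k') * g := by group
      rw [e]; exact hmem
    · intro hlow
      have h := mem_Nsub_of_low hlow
      refine hk'Y (k⁻¹ * f) (Finset.mem_image.2 ⟨(k, f), Finset.mem_product.2 ⟨hk, hf⟩, rfl⟩) ?_
      have e : (k⁻¹ * f)⁻¹ * (k' * u⁻¹) = f⁻¹ * k * (k' * u⁻¹) := by group
      rw [e]; exact h

end

end Pool.Agent.Lib.MP_ffa63f_al
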